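import Pool.Agent.H970R2.TAM.Defs
import Pool.Agent.H970R2.TAM.TDS
import Pool.Agent.H970R2.TAM.THOM
import Pool.Agent.H970R2.TAM.TPREC
import Pool.Agent.H970R2.TAM.TENUM
import Pool.Agent.H970R2.TAM.TDOM
import Pool.Agent.H970R2.TAM.TDOMF
import Pool.Agent.H970R2.TAM.TDOMC
import Pool.Agent.H970R2.TAM.TGG
import Pool.Agent.H970R2.TAM.TW2C
import Pool.Agent.H970R2.TAM.TW2E
import Pool.Agent.H970R2.TAM.TFIN2
import Pool.Agent.H970R2.TAM.TPIA
import Pool.Agent.H970R2.TAM.TSCC
import Pool.Agent.H970R2.TAM.TSCE
import Pool.Agent.H970R2.TAM.TSCA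
import Pool.Agent.H970R2.TAM.TL1
import Pool.Agent.H970R2.TAM.TL2
import Pool.Agent.H970R2.TAM.TATA
import Pool.Agent.H970R2.TAM.TNB
import Pool.Agent.H970R2.TAM.TCHAIN
import Pool.Agent.H970R2.TAM.TCK
import Pool.Agent.H970R2.TAM.TIS
import Pool.Agent.H970R2.TAM.TFC
import Pool.Agent.H970R2.TAM.TTOP

/-!
# (TAM) implies that first countable ccc Čech-complete spaces are separable

(TAM): for every Hausdorff space `X` with `c(X) = ℵ₀`, every uncountable family of nonempty open
subsets of `X` has an uncountable centered subfamily.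
The proof goes through the following consequences of (TAM): domination of `ω₁` functions; every
`ω₁`-generated filter base on `ω` has a pseudo-intersection (a hereditary ccc family of finite
subsets of `ω₁` of width two); countably many points meeting `ω₁` given open sets of a compact ccc
space; and a closing-off argument of length `ω₁` in `X`.
-/

open Set Topology

universe u

namespace Pool.Agent.Results.MP_4ebb14_gt.SeparabilityUnderTAM

open H970R2.TAM

/-- (TAM) implies that every first countable Čech-complete space `X` with `c(X) = ℵ₀` is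
separable. -/
theorem result : TAM.{u} → ∀ (X : Type u) [TopologicalSpace X] [T35Space X]
    [FirstCountableTopology X], IsGδ (range (stoneCechUnit : X → StoneCech X)) →
    CountableCellularity X → TopologicalSpace.SeparableSpace X := fun hT =>
  t_TOP (t_ATA t_DS t_HOM t_PREC t_ENUM t_DOM t_DOMF t_DOMC t_GG t_W2C t_W2E t_FIN2 t_PIA t_SCC
    t_SCE t_SCA t_L1 t_L2 hT) t_NB t_CHAIN t_CK t_IS t_FC

end Pool.Agent.Results.MP_4ebb14_gt.SeparabilityUnderTAM
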